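import Pool.Agent.Q51.EB.Stm2
import Pool.Agent.Y287.SZ.Weil

/-!
# Project EB (helper51), job WEIL: `u y ^ m = g(x)` is soluble modulo large primes
-/

set_option autoImplicit false

namespace Pool.Agent.Q241.EB

open Polynomial Finset Pool.Agent.Q51.EB

/-- a character whose order is `gcd(m, p - 1)` detects the `m`-th powers -/
theorem pow_of_char {F : Type} [Field F] [Fintype F] (m : ℕ) (χ : MulChar F ℂ)
    (hχ : orderOf χ = Nat.gcd m (Fintype.card F - 1)) (z : F) (hz : z ≠ 0) (h1 : χ z = 1) :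
    ∃ y : F, y ≠ 0 ∧ y ^ m = z := by
  classical
  obtain ⟨g, hg⟩ := IsCyclic.exists_generator (α := Fˣ)
  obtain ⟨a, ha⟩ := Subgroup.mem_zpowers_iff.1 (hg (Units.mk0 z hz))
  have hz' : z = ((g ^ a : Fˣ) : F) := by rw [ha]; rfl
  have h2 : χ ^ a = 1 := by
    rw [MulChar.eq_iff hg]
    have h3 : ∀ (ψ : MulChar F ℂ) (u : Fˣ) , ((ψ.toUnitHom u : ℂˣ) : ℂ) = ψ u := fun ψ u =>
      MulChar.coe_toUnitHom ψ u
    have h4 : ∀ (b : ℤ), (χ ^ b) (g : F) = (χ ((g ^ b : Fˣ) : F)) := by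
      intro b
      have h5 : ∀ n : ℕ, (χ ^ n) (g : F) = χ ((g ^ n : Fˣ) : F) := by
        intro n
        rw [MulChar.pow_apply_coe, Units.val_pow_eq_pow_val, map_pow]
      obtain ⟨n, rfl | rfl⟩ := b.eq_nat_or_neg
      · rw [zpow_natCast, zpow_natCast]; exact h5 n
      · rw [zpow_neg, zpow_neg, zpow_natCast, zpow_natCast, MulChar.inv_apply_eq_inv, h5 n]
        rw [← h3, ← h3, map_inv, Units.val_inv_eq_inv_val, Ring.inverse_eq_inv']
    rw [h4, ← hz', h1]
    exact (MulChar.one_apply_coe g).symm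
  have h3 : ((Nat.gcd m (Fintype.card F - 1) : ℕ) : ℤ) ∣ a := by
    rw [← hχ]
    exact orderOf_dvd_iff_zpow_eq_one.2 h2
  obtain ⟨b, rfl⟩ := h3
  have hcard : g ^ (Fintype.card F - 1) = 1 := by
    rw [← Fintype.card_units]
    exact pow_card_eq_one
  refine ⟨((g ^ (Nat.gcdA m (Fintype.card F - 1) * b) : Fˣ) : F), Units.ne_zero _, ?_⟩
  rw [hz', ← Units.val_pow_eq_pow_val]
  congr 1
  rw [Nat.gcd_eq_gcd_ab, add_mul, zpow_add]
  have e1 : g ^ (((Fintype.card F - 1 : ℕ) : ℤ) * Nat.gcdB m (Fintype.card F - 1) * b) = 1 := by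
    rw [mul_assoc, zpow_mul, zpow_natCast, hcard, one_zpow]
  rw [e1, mul_one, ← zpow_natCast, ← zpow_mul]
  congr 1
  ring

/-- a squarefree polynomial of positive degree has a root of multiplicity one -/
theorem copG_of_squarefree {p : ℕ} [Fact p.Prime] (P : (ZMod p)[X]) (hP : Squarefree P)
    (hd : 1 ≤ P.natDegree) (t : ℕ) : Pool.Agent.Y287.SZ.W.CopG t P := by
  have hs : P.Separable := PerfectField.separable_iff_squarefree.2 hP
  have hP0 : P ≠ 0 := hP.ne_zero
  have hdeg : (P.map (algebraMap (ZMod p) (AlgebraicClosure (ZMod p)))).degree ≠ 0 := by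
    rw [degree_map, degree_eq_natDegree hP0]
    exact_mod_cast (by omega : P.natDegree ≠ 0)
  obtain ⟨v, hv⟩ := IsAlgClosed.exists_root _ hdeg
  refine ⟨AlgebraicClosure (ZMod p), inferInstance, inferInstance, algebraMap _ _, v, ?_⟩
  have h1 : (P.map (algebraMap (ZMod p) (AlgebraicClosure (ZMod p)))).Separable := hs.map
  have h2 := rootMultiplicity_le_one_of_separable h1 v
  have h3 : 0 < rootMultiplicity v (P.map (algebraMap (ZMod p) (AlgebraicClosure (ZMod p)))) := by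
    rw [rootMultiplicity_pos h1.ne_zero]
    exact hv
  have h4 : rootMultiplicity v (P.map (algebraMap (ZMod p) (AlgebraicClosure (ZMod p)))) = 1 := by
    omega
  rw [h4]
  exact Nat.coprime_one_left t

theorem card_roots_le {p : ℕ} [Fact p.Prime] (g : (ZMod p)[X]) (hg : g ≠ 0) :
    (univ.filter (fun x : ZMod p => g.eval x = 0)).card ≤ g.natDegree := by
  classical
  have h1 : (univ.filter (fun x : ZMod p => g.eval x = 0)) ⊆ g.roots.toFinset := by
    intro x hx
    rw [mem_filter] at hx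
    rw [Multiset.mem_toFinset, mem_roots hg]
    exact hx.2
  exact (card_le_card h1).trans ((Multiset.toFinset_card_le _).trans (card_roots' g))

theorem weilm : S_WEIL := by
  classical
  intro p hp g m u hm hu hg hd hlt
  have hg0 : g ≠ 0 := hg.ne_zero
  set n := g.natDegree with hn
  have hcard : Fintype.card (ZMod p) = p := ZMod.card p
  have hp1 : 1 < p := hp.out.one_lt
  have hnp : n < p := by
    have h1 : m * n + n + 1 ≤ (m * n + n + 1) ^ 2 := Nat.le_self_pow (by norm_num) _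
    have h2 : 0 ≤ m * n := Nat.zero_le _
    omega
  set k := Nat.gcd m (p - 1) with hk
  have hk0 : 0 < k := Nat.gcd_pos_of_pos_left _ hm
  have hkm : k ≤ m := Nat.gcd_le_left _ hm
  have hkp : k ∣ p - 1 := Nat.gcd_dvd_right _ _
  obtain ⟨χ, hχ⟩ := MulChar.exists_mulChar_orderOf (ZMod p) (R := ℂ) (n := k) (by rwa [hcard])
    (Complex.isPrimitiveRoot_exp k hk0.ne')
  by_contra hno
  push Not at hno
  have key : ∀ x : ZMod p, g.eval x ≠ 0 → χ (u⁻¹ * g.eval x) ≠ 1 := by
    intro x hx h1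
    obtain ⟨y, hy0, hy⟩ := pow_of_char m χ (by rw [hχ, hcard]) (u⁻¹ * g.eval x)
      (mul_ne_zero (inv_ne_zero hu) hx) h1
    exact hno x y hy0 (by rw [hy, mul_inv_cancel_left₀ hu])
  have hsum0 : ∀ x : ZMod p, ∑ j ∈ range k, (χ ^ j) (u⁻¹ * g.eval x) = 0 := by
    intro x
    by_cases hx : g.eval x = 0
    · rw [hx, mul_zero]
      exact sum_eq_zero fun j _ => MulChar.map_zero _
    · have hz : u⁻¹ * g.eval x ≠ 0 := mul_ne_zero (inv_ne_zero hu) hx
      have e1 : ∀ j : ℕ, (χ ^ j) (u⁻¹ * g.eval x) = (χ (u⁻¹ * g.eval x)) ^ j := by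
        intro j
        have := MulChar.pow_apply_coe χ j (Units.mk0 _ hz)
        simpa using this
      simp_rw [e1]
      have e2 : (χ (u⁻¹ * g.eval x)) ^ k = 1 := by
        rw [← e1, ← hχ, pow_orderOf_eq_one]
        exact MulChar.one_apply (isUnit_iff_ne_zero.2 hz)
      have e3 := geom_sum_eq (key x hx) k
      rw [e3, e2, sub_self, zero_div]
  have htot : ∑ j ∈ range k, ∑ x : ZMod p, (χ ^ j) (u⁻¹ * g.eval x) = 0 := by
    rw [sum_comm]
    exact sum_eq_zero fun x _ => hsum0 x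
  -- the monic polynomial
  have hlc : g.leadingCoeff ≠ 0 := leadingCoeff_ne_zero.2 hg0
  obtain ⟨P, hP⟩ : ∃ P : (ZMod p)[X], P = C (g.leadingCoeff)⁻¹ * g := ⟨_, rfl⟩
  have hPm : P.Monic := by
    rw [hP, Monic, leadingCoeff_mul, leadingCoeff_C, inv_mul_cancel₀ hlc]
  have hPd : P.natDegree = n := by
    rw [hP, natDegree_C_mul (inv_ne_zero hlc)]
  have hPs : Squarefree P := by
    refine hg.squarefree_of_dvd (Dvd.intro_left (C g.leadingCoeff) ?_)
    rw [hP, ← mul_assoc, ← C_mul, mul_inv_cancel₀ hlc, C_1, one_mul]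
  have hgP : ∀ x, g.eval x = g.leadingCoeff * P.eval x := by
    intro x
    rw [hP, eval_mul, eval_C, mul_inv_cancel_left₀ hlc]
  have hb : ∀ j ∈ range k, j ≠ 0 → ‖∑ x : ZMod p, (χ ^ j) (u⁻¹ * g.eval x)‖ ≤ n * Real.sqrt p := by
    intro j hj hj0
    rw [mem_range] at hj
    have hne : χ ^ j ≠ 1 := by
      intro h
      have := orderOf_dvd_of_pow_eq_one h
      rw [hχ] at this
      have := Nat.le_of_dvd (Nat.pos_of_ne_zero hj0) this
      omega
    have hpw : (χ ^ j) ^ k = 1 := by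
      rw [← pow_mul, mul_comm, pow_mul, ← hχ, pow_orderOf_eq_one, one_pow]
    have hw := Pool.Agent.Y287.SZ.W.weil (F := ZMod p) k (by omega) (by rwa [hcard]) (χ ^ j) hne hpw
      P 1 hPm monic_one (by rw [one_pow, mul_one]; exact copG_of_squarefree P hPs (by omega) k)
    have e1 : ∑ x : ZMod p, (χ ^ j) (u⁻¹ * g.eval x) =
        (χ ^ j) (u⁻¹ * g.leadingCoeff) * ∑ x : ZMod p, (χ ^ j) (P.eval x) * (starRingEnd ℂ)
          ((χ ^ j) ((1 : (ZMod p)[X]).eval x)) := by
      rw [mul_sum]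
      refine sum_congr rfl fun x _ => ?_
      rw [eval_one, map_one, map_one, mul_one, ← map_mul, hgP x]
      congr 1
      ring
    rw [e1, norm_mul]
    have e2 : ‖(χ ^ j) (u⁻¹ * g.leadingCoeff)‖ ≤ 1 := by
      have hz : u⁻¹ * g.leadingCoeff ≠ 0 := mul_ne_zero (inv_ne_zero hu) hlc
      have h5 : ((χ ^ j) (u⁻¹ * g.leadingCoeff)) ^ k = 1 := by
        have h6 := MulChar.pow_apply_coe (χ ^ j) k (Units.mk0 _ hz)
        rw [Units.val_mk0] at h6
        rw [← h6, hpw]
        exact MulChar.one_apply (isUnit_iff_ne_zero.2 hz)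
      exact (Complex.norm_eq_one_of_pow_eq_one h5 hk0.ne').le
    have e3 : ((P.natDegree + (1 : (ZMod p)[X]).natDegree : ℕ) : ℝ) = n := by
      rw [hPd, natDegree_one, add_zero]
    rw [e3, hcard] at hw
    calc _ ≤ 1 * (n * Real.sqrt p) := mul_le_mul e2 hw (norm_nonneg _) zero_le_one
      _ = _ := one_mul _
  -- the trivial character
  have h0 : ∑ x : ZMod p, (χ ^ 0) (u⁻¹ * g.eval x) =
      ((p - (univ.filter (fun x : ZMod p => g.eval x = 0)).card : ℝ) : ℂ) := by
    have e1 : ∀ x : ZMod p, (χ ^ 0) (u⁻¹ * g.eval x) = 1 - (if g.eval x = 0 then (1 : ℂ) else 0) := by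
      intro x
      rw [pow_zero]
      split_ifs with h
      · rw [h, mul_zero, MulChar.map_zero, sub_self]
      · rw [sub_zero]
        exact MulChar.one_apply (isUnit_iff_ne_zero.2 (mul_ne_zero (inv_ne_zero hu) h))
    simp_rw [e1]
    rw [sum_sub_distrib, sum_const, card_univ, hcard, sum_boole]
    simp
  have hroots := card_roots_le g hg0
  rw [← hn] at hroots
  have hroots' : ((univ.filter (fun x : ZMod p => g.eval x = 0)).card : ℝ) ≤ n := by
    exact_mod_cast hroots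
  have hsplit : (p : ℝ) - n ≤ (k - 1 : ℕ) * (n * Real.sqrt p) := by
    obtain ⟨k', hk'⟩ : ∃ k', k = k' + 1 := ⟨k - 1, by omega⟩
    rw [hk', sum_range_succ', h0] at htot
    have e1 : ‖∑ j ∈ range k', ∑ x : ZMod p, (χ ^ (j + 1)) (u⁻¹ * g.eval x)‖ ≤
        k' * (n * Real.sqrt p) := by
      refine (norm_sum_le _ _).trans ?_
      calc _ ≤ ∑ j ∈ range k', (n * Real.sqrt p) := sum_le_sum fun j hj => by
            rw [mem_range] at hj
            exact hb (j + 1) (mem_range.2 (by omega)) (by omega)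
        _ = _ := by rw [sum_const, card_range, nsmul_eq_mul]
    have e2 : ∑ j ∈ range k', ∑ x : ZMod p, (χ ^ (j + 1)) (u⁻¹ * g.eval x) =
        -((p - (univ.filter (fun x : ZMod p => g.eval x = 0)).card : ℝ) : ℂ) :=
      eq_neg_of_add_eq_zero_left htot
    rw [e2, norm_neg, Complex.norm_real] at e1
    have e3 := le_of_abs_le e1
    rw [hk', Nat.add_sub_cancel]
    linarith
  -- the contradiction
  have hs : ((m * n + n + 1 : ℕ) : ℝ) < Real.sqrt p := by
    rw [Real.lt_sqrt (Nat.cast_nonneg _)]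
    exact_mod_cast hlt
  have hss : Real.sqrt p * Real.sqrt p = p := Real.mul_self_sqrt (Nat.cast_nonneg _)
  have hk1 : ((k - 1 : ℕ) : ℝ) ≤ m := by exact_mod_cast (by omega : k - 1 ≤ m)
  push_cast at hs
  have hn0 : (0 : ℝ) ≤ n := Nat.cast_nonneg _
  have hm0 : (0 : ℝ) ≤ m := Nat.cast_nonneg _
  have hsp : (0 : ℝ) < Real.sqrt p := by nlinarith [mul_nonneg hm0 hn0]
  have h5 : ((k - 1 : ℕ) : ℝ) * (n * Real.sqrt p) ≤ m * (n * Real.sqrt p) :=
    mul_le_mul_of_nonneg_right hk1 (by positivity)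
  have h6 : (m * n + n + 1 : ℝ) * Real.sqrt p < p := by
    calc (m * n + n + 1 : ℝ) * Real.sqrt p < Real.sqrt p * Real.sqrt p :=
          mul_lt_mul_of_pos_right hs hsp
      _ = p := hss
  have h7 : (n : ℝ) ≤ n * Real.sqrt p := by
    have : (1 : ℝ) ≤ Real.sqrt p := by nlinarith [mul_nonneg hm0 hn0]
    nlinarith
  nlinarith

end Pool.Agent.Q241.EB
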